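import Pool.Agent.K1H81.DC.Stm

/-!
# The normal law for random double covers
-/

set_option autoImplicit false
set_option linter.unusedSectionVars false

namespace Pool.Agent.K1H6.DC

open Finset hiding val
open MeasureTheory ProbabilityTheory
open Pool.Agent.Y722.HS Pool.Agent.X280.HG Pool.Agent.X280.BP Pool.Agent.X280.UC
open Pool.Agent.K1H81.DC
open Pool.Agent.K1H81.HV (KK NV PF DD ev Fr deg Dep WD mean WD_total var_pos ptw gauss_cdf slutsky)

theorem UU_eq {r : ℕ} (φ : MvPolynomial (Fin r) ℝ) (m d p : ℕ) [hp : Fact p.Prime] (h2 : p ≠ 2) :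
    UU φ m d p = fun c : Mon (2 * m) d → ZMod p =>
      MvPolynomial.eval (fun i : Fin r => tq m d p ((i : ℕ) + 1) c) φ := by
  funext c
  unfold UU
  rw [dif_pos ⟨hp.out, h2⟩]

open Classical in
theorem EM_bad2 (n d : ℕ) (hd : 1 ≤ d) (p : ℕ) [hp : Fact p.Prime] :
    EM p (fun c : Mon n d → ZMod p => if IsBad p c ∨ p = 2 then (1 : ℝ) else 0) ≤
      ((Delta n d).totalDegree + d + 2 : ℝ) / p := by
  have hp0 : (0 : ℝ) < p := by exact_mod_cast hp.out.pos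
  by_cases h2 : p = 2
  · have h1 : EM p (fun c : Mon n d → ZMod p => if IsBad p c ∨ p = 2 then (1 : ℝ) else 0) ≤ 1 := by
      have h2 := EM_monoV p (fun c : Mon n d → ZMod p => if IsBad p c ∨ p = 2 then (1 : ℝ) else 0)
        (fun _ => 1) (fun c => by split_ifs <;> norm_num)
      rwa [EM_const'] at h2
    refine h1.trans ?_
    rw [le_div_iff₀ hp0, one_mul]
    have h3 : (p : ℝ) = 2 := by exact_mod_cast h2
    have h4 : (0 : ℝ) ≤ (Delta n d).totalDegree := Nat.cast_nonneg _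
    have h5 : (0 : ℝ) ≤ (d : ℝ) := Nat.cast_nonneg _
    linarith
  · have h1 := Pool.Agent.K1H81.HV.EM_bad n d hd p
    have h3 : (fun c : Mon n d → ZMod p => if IsBad p c ∨ p = 2 then (1 : ℝ) else 0) =
        fun c : Mon n d → ZMod p => if IsBad p c then (1 : ℝ) else 0 := by
      funext c
      simp only [h2, or_false]
    rw [h3]
    refine h1.trans (div_le_div_of_nonneg_right ?_ hp0.le)
    linarith

/-- **The normal law for the Sato–Tate sums of hypersurfaces.** -/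
theorem law_mv (hLD0 : S_LD) {r : ℕ} (φ : MvPolynomial (Fin r) ℝ) (hφ : ∀ a, φ ≠ MvPolynomial.C a) (m d : ℕ)
    (hm : 1 ≤ m) (hd : 4 * (φ.weightedTotalDegree fun i : Fin r => (i : ℕ) + 1) ≤ d + 1) (δ : ℝ)
    (hδ : 0 < δ) (u ε : ℝ) (hε : 0 < ε) :
    ∃ K : ℕ, ∀ (P : Finset ℕ) (w : ℕ → ℝ) (y H : ℕ), (∀ p ∈ P, p.Prime ∧ p ≤ y) →
      (∀ p ∈ P, |w p| ≤ 1) → δ * P.card ≤ ∑ p ∈ P, w p ^ 2 → K ≤ P.card → y ^ K ≤ H →
      |({c : Mon (2 * m) d → ℤ | (∀ μ, |c μ| ≤ H) ∧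
        ∑ p ∈ P, w p * (UU φ m d p (red p c) - mean φ) ≤
          u * √((mean (φ ^ 2) - mean φ ^ 2) * ∑ p ∈ P, w p ^ 2)}.ncard : ℝ) /
        (2 * H + 1 : ℝ) ^ Fintype.card (Mon (2 * m) d) -
          (gaussianReal 0 1).real (Set.Iic u)| ≤ ε := by
  classical
  obtain ⟨C, hC⟩ := hLD0 r _ φ (WD_total φ) m d hm hd
  have hv := var_pos φ hφ
  obtain ⟨K, hK⟩ := abs_law hC hv hδ u hε
  refine ⟨max K 1, fun P w y H hP hw hvar hcard hH => ?_⟩
  have hc1 : 1 ≤ P.card := (le_max_right _ _).trans hcard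
  have hy1 : 1 ≤ y := by
    obtain ⟨p, hp⟩ : P.Nonempty := by rw [← Finset.card_pos]; omega
    have h1 := (hP p hp).2
    have h2 := (hP p hp).1.pos
    omega
  have hfin := hK P w y H hP hw hvar ((le_max_left _ _).trans hcard)
    ((Nat.pow_le_pow_right hy1 (le_max_left _ _)).trans hH)
  have hW0 : 0 < ∑ p ∈ P, w p ^ 2 := by
    have : (1 : ℝ) ≤ P.card := by exact_mod_cast hc1
    have h2 : 0 < δ * P.card := by positivity
    linarith
  have hs0 : 0 < √((mean (φ ^ 2) - mean φ ^ 2) * ∑ p ∈ P, w p ^ 2) :=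
    Real.sqrt_pos.2 (mul_pos hv hW0)
  rw [measureReal_def, law_apply H _ _ measurableSet_Iic,
    ENNReal.toReal_ofReal (by positivity)] at hfin
  rw [ncard_box]
  have e : ((Pool.Agent.Y722.HS.box (Mon (2 * m) d) H).filter (fun c =>
      ∑ p ∈ P, w p * (UU φ m d p (red p c) - mean φ) ≤
          u * √((mean (φ ^ 2) - mean φ ^ 2) * ∑ p ∈ P, w p ^ 2))) =
      (Pool.Agent.Y722.HS.box (Mon (2 * m) d) H).filter (fun c =>
        (∑ p ∈ P, w p * (UU φ m d p (red p c) - mean φ)) /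
        √((mean (φ ^ 2) - mean φ ^ 2) * ∑ p ∈ P, w p ^ 2) ∈ Set.Iic u) := by
    apply Finset.filter_congr
    intro c _
    rw [Set.mem_Iic, div_le_iff₀ hs0]
  rw [e]
  exact hfin

open Classical in
/-- **The normal law for the primes of good reduction.** -/
theorem law_good (hLD0 : S_LD) (hTR : S_TR) {r : ℕ} (φ : MvPolynomial (Fin r) ℝ) (hφ : ∀ a, φ ≠ MvPolynomial.C a) (m d : ℕ)
    (hm : 1 ≤ m) (hd1 : 1 ≤ d) (hde : Even d)
    (hd : 4 * (φ.weightedTotalDegree fun i : Fin r => (i : ℕ) + 1) ≤ d + 1) (δ : ℝ)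
    (hδ : 0 < δ) (u ε : ℝ) (hε : 0 < ε) :
    ∃ K : ℕ, ∀ (P : Finset ℕ) (w : ℕ → ℝ) (y H : ℕ), (∀ p ∈ P, p.Prime ∧ p ≤ y) →
      (∀ p ∈ P, |w p| ≤ 1) → δ * P.card ≤ ∑ p ∈ P, w p ^ 2 → K ≤ P.card → y ^ K ≤ H →
      |({c : Mon (2 * m) d → ℤ | (∀ μ, |c μ| ≤ H) ∧
        ∑ p ∈ P with GoodReduction c p,
          w p * (MvPolynomial.eval (fun k : Fin r => trace c p ((k : ℕ) + 1)) φ - mean φ) ≤
          u * √((mean (φ ^ 2) - mean φ ^ 2) * ∑ p ∈ P, w p ^ 2)}.ncard : ℝ) /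
        (2 * H + 1 : ℝ) ^ Fintype.card (Mon (2 * m) d) -
          (gaussianReal 0 1).real (Set.Iic u)| ≤ ε := by
  obtain ⟨C, hLD⟩ := hLD0 r _ φ (WD_total φ) m d hm hd
  have hC0 := hLD.C0
  have hv := var_pos φ hφ
  obtain ⟨η, hη⟩ : ∃ η : ℝ, ε / 3 = η := ⟨_, rfl⟩
  have hη0 : 0 < η := by rw [← hη]; positivity
  obtain ⟨K1, hK1⟩ := law_mv hLD0 φ hφ m d hm hd δ hδ (u + η) η hη0
  obtain ⟨K2, hK2⟩ := law_mv hLD0 φ hφ m d hm hd δ hδ (u - η) η hη0
  obtain ⟨v, hvd⟩ : ∃ v : ℝ, mean (φ ^ 2) - mean φ ^ 2 = v := ⟨_, rfl⟩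
  obtain ⟨μ, hμ⟩ : ∃ μ : ℝ, mean φ = μ := ⟨_, rfl⟩
  simp only [hvd] at hK1 hK2 hv
  simp only [hμ] at hK1 hK2 hLD
  rw [hvd, hμ]
  obtain ⟨κ, hκ⟩ : ∃ κ : ℝ, κ = √(v * δ) := ⟨_, rfl⟩
  have hκ0 : 0 < κ := by rw [hκ]; exact Real.sqrt_pos.2 (by positivity)
  have hκ2 : κ ^ 2 = v * δ := by rw [hκ]; exact Real.sq_sqrt (by positivity)
  obtain ⟨D, hD⟩ : ∃ D : ℝ, ((Delta (2 * m) d).totalDegree + d + 2 : ℝ) = D := ⟨_, rfl⟩
  have hD0 : 0 ≤ D := by rw [← hD]; positivity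
  obtain ⟨C4, hC4⟩ : ∃ C4 : ℝ, 8 * C + 8 * μ ^ 4 = C4 := ⟨_, rfl⟩
  have hC40 : 0 ≤ C4 := by rw [← hC4]; positivity
  obtain ⟨n, hn⟩ : ∃ n, Fintype.card (Mon (2 * m) d) = n := ⟨_, rfl⟩
  rw [hn]
  simp only [hn] at hK1 hK2
  obtain ⟨M, hM⟩ : ∃ M : ℝ, 2 ^ n * (C4 + 10 * D) = M := ⟨_, rfl⟩
  have hM0 : 0 ≤ M := by rw [← hM]; positivity
  obtain ⟨K3, hK3⟩ := exists_nat_ge ((1 + M / (η * η * κ)) ^ 8)
  refine ⟨max (max K1 K2) (max K3 1), fun P w y H hP hw hvar hcard hH => ?_⟩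
  have hc1 : 1 ≤ P.card := (le_max_right _ _).trans ((le_max_right _ _).trans hcard)
  have hc3 : K3 ≤ P.card := (le_max_left _ _).trans ((le_max_right _ _).trans hcard)
  have hy1 : 1 ≤ y := by
    obtain ⟨p, hp⟩ : P.Nonempty := by rw [← Finset.card_pos]; omega
    have h1 := (hP p hp).2
    have h2 := (hP p hp).1.pos
    omega
  have hH1 : y ^ K1 ≤ H := (Nat.pow_le_pow_right hy1
    ((le_max_left _ _).trans (le_max_left _ _))).trans hH
  have hH2 : y ^ K2 ≤ H := (Nat.pow_le_pow_right hy1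
    ((le_max_right _ _).trans (le_max_left _ _))).trans hH
  have hyH : y ≤ H := by
    refine le_trans ?_ hH
    exact Nat.le_self_pow (by
      have := le_max_right K3 1
      have := le_max_right (max K1 K2) (max K3 1)
      omega) y
  have k1 := hK1 P w y H hP hw hvar ((le_max_left _ _).trans ((le_max_left _ _).trans hcard)) hH1
  have k2 := hK2 P w y H hP hw hvar ((le_max_right _ _).trans ((le_max_left _ _).trans hcard)) hH2
  -- the normalisation
  obtain ⟨N, hN⟩ : ∃ N : ℝ, (P.card : ℝ) = N := ⟨_, rfl⟩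
  rw [hN] at hvar
  have hN0 : 0 ≤ N := by rw [← hN]; exact Nat.cast_nonneg _
  obtain ⟨a, ha0, ha8⟩ := exists_root hN0
  have haM : 1 + M / (η * η * κ) ≤ a := by
    have h1 : (1 + M / (η * η * κ)) ^ 8 ≤ a ^ 8 := by
      rw [ha8, ← hN]
      exact hK3.trans (by exact_mod_cast hc3)
    exact le_of_pow_le_pow_left₀ (by norm_num) ha0 h1
  have hMq : 0 ≤ M / (η * η * κ) := by positivity
  have ha1 : 1 ≤ a := by linarith
  have haM' : M ≤ η * η * κ * a := by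
    have h1 : M / (η * η * κ) ≤ a := by linarith
    rw [div_le_iff₀ (by positivity)] at h1
    linarith
  obtain ⟨W, hW⟩ : ∃ W : ℝ, ∑ p ∈ P, w p ^ 2 = W := ⟨_, rfl⟩
  rw [hW] at hvar ⊢
  rw [hW] at k1 k2
  have hap : 0 < a := by linarith
  have hW0 : 0 < W := lt_of_lt_of_le (by rw [← ha8]; positivity) hvar
  obtain ⟨σ, hσ⟩ : ∃ σ : ℝ, √(v * W) = σ := ⟨_, rfl⟩
  rw [hσ] at k1 k2 ⊢
  have hσ0 : 0 < σ := by rw [← hσ]; exact Real.sqrt_pos.2 (by positivity)
  have hσ2 : σ ^ 2 = v * W := by rw [← hσ]; exact Real.sq_sqrt (by positivity)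
  have hσa : κ * a ^ 4 ≤ σ := by
    refine le_of_pow_le_pow_left₀ (n := 2) (by norm_num) hσ0.le ?_
    rw [mul_pow, hκ2, hσ2, ← pow_mul, ha8, mul_assoc]
    exact mul_le_mul_of_nonneg_left hvar hv.le
  -- the bad primes
  let S : (Mon (2 * m) d → ℤ) → ℝ := fun c => ∑ p ∈ P, w p * (UU φ m d p (red p c) - μ)
  let S' : (Mon (2 * m) d → ℤ) → ℝ := fun c => ∑ p ∈ P with GoodReduction c p,
    w p * (MvPolynomial.eval (fun k : Fin r => trace c p ((k : ℕ) + 1)) φ - μ)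
  let B : ∀ p : ℕ, (Mon (2 * m) d → ZMod p) → ℝ := fun p c =>
    |UU φ m d p c - μ| * (if IsBad p c ∨ p = 2 then 1 else 0)
  have hdiff : ∀ c, |S c - S' c| ≤ ∑ p ∈ P, B p (red p c) := by
    intro c
    have h0 : S' c = ∑ p ∈ P with GoodReduction c p, w p * (UU φ m d p (red p c) - μ) := by
      change ∑ p ∈ P with GoodReduction c p, _ = _
      refine Finset.sum_congr rfl fun p hp => ?_
      rw [Finset.mem_filter] at hp
      have : Fact p.Prime := ⟨(hP p hp.1).1⟩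
      rw [UU_eq φ m d p hp.2.1]
      simp only [hTR m d hde c p _ hp.2.1 (Nat.succ_pos _)]
    have h1 : S c - S' c = ∑ p ∈ P with ¬ GoodReduction c p,
        w p * (UU φ m d p (red p c) - μ) := by
      rw [h0]
      change ∑ p ∈ P, _ - ∑ p ∈ P with GoodReduction c p, _ = _
      rw [← Finset.sum_filter_add_sum_filter_not P (fun p => GoodReduction c p)]
      ring
    rw [h1]
    refine (Finset.abs_sum_le_sum_abs _ _).trans ?_
    rw [Finset.sum_filter]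
    refine Finset.sum_le_sum fun p hp => ?_
    have : Fact p.Prime := ⟨(hP p hp).1⟩
    have hB0 : 0 ≤ B p (red p c) := by
      change 0 ≤ |UU φ m d p (red p c) - μ| * _
      positivity
    by_cases h2 : GoodReduction c p
    · rw [if_neg (not_not.2 h2)]
      exact hB0
    · rw [if_pos h2]
      change _ ≤ |UU φ m d p (red p c) - μ| * _
      have h3 : IsBad p (red p c) ∨ p = 2 := by
        by_cases hp2 : p = 2
        · exact Or.inr hp2
        · exact Or.inl (Pool.Agent.K1H81.HV.isBad_of hd1 c p fun h => h2 ⟨hp2, h⟩)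
      rw [if_pos h3, mul_one, abs_mul]
      calc |w p| * _ ≤ 1 * _ := mul_le_mul_of_nonneg_right (hw p hp) (abs_nonneg _)
        _ = _ := one_mul _
  have hEB : EB H (fun c => |S c - S' c|) ≤ M * a ^ 3 := by
    refine (EB_mono H _ _ hdiff).trans ?_
    rw [EB_sum]
    have h5 : ∀ p ∈ P, EB H (fun c => B p (red p c)) ≤
        2 ^ n * (C4 / (a ^ 2) ^ 3 + a ^ 2 * (D / p)) := by
      intro p hp
      have hpf : Fact p.Prime := ⟨(hP p hp).1⟩
      have hpH : p ≤ 2 * H + 1 := by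
        have := (hP p hp).2
        omega
      refine (EB_le H p hpH (fun c => B p c) (fun c => by
        change 0 ≤ |UU φ m d p c - μ| * _
        positivity)).trans ?_
      rw [hn]
      refine mul_le_mul_of_nonneg_left ?_ (by positivity)
      have h6 : EM p (fun c => B p c) ≤ EM p (fun c : Mon (2 * m) d → ZMod p =>
          1 / (a ^ 2) ^ 3 * (8 * UU φ m d p c ^ 4 + 8 * μ ^ 4) +
          a ^ 2 * (if IsBad p c ∨ p = 2 then 1 else 0)) := by
        refine EM_monoV p _ _ fun c => ?_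
        exact ptw (by positivity) (by split_ifs <;> simp)
      refine h6.trans ?_
      rw [EM_add', EM_mul', EM_mul', EM_add', EM_mul', EM_const']
      have h7 := hLD.m4 p (hP p hp).1
      have h8 := EM_bad2 (2 * m) d hd1 p
      rw [hD] at h8
      have h9 : 8 * EM p (fun c => UU φ m d p c ^ 4) + 8 * μ ^ 4 ≤ C4 := by
        rw [← hC4]
        linarith
      calc _ ≤ 1 / (a ^ 2) ^ 3 * C4 + a ^ 2 * (D / p) := by gcongr
        _ = _ := by ring
    refine (Finset.sum_le_sum h5).trans ?_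
    rw [← Finset.mul_sum, Finset.sum_add_distrib, Finset.sum_const, nsmul_eq_mul, hN,
      ← Finset.mul_sum]
    have h6 : ∑ p ∈ P, D / (p : ℝ) ≤ D * (2 + 8 * a) := by
      have h7 : ∑ p ∈ P, D / (p : ℝ) = D * ∑ p ∈ P, (1 : ℝ) / p := by
        rw [Finset.mul_sum]
        exact Finset.sum_congr rfl fun p _ => by ring
      rw [h7]
      refine mul_le_mul_of_nonneg_left ?_ hD0
      refine (sum_inv_le P fun p hp => (hP p hp).1.one_lt.le).trans ?_
      have hlogN : Real.log N ≤ 8 * a := by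
        rw [← ha8, Real.log_pow]
        have h1 := Real.log_le_sub_one_of_pos hap
        push_cast
        linarith
      rw [hN]
      linarith
    have h7 : N * (C4 / (a ^ 2) ^ 3) = C4 * a ^ 2 := by
      rw [← ha8]
      field_simp
    rw [h7, ← hM, mul_assoc (2 ^ n : ℝ)]
    refine mul_le_mul_of_nonneg_left ?_ (by positivity)
    have h8 : a ^ 2 ≤ a ^ 3 := pow_le_pow_right₀ ha1 (by norm_num)
    have h9 : a ^ 2 * (D * (2 + 8 * a)) ≤ 10 * D * a ^ 3 := by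
      have h10 : a ^ 2 * (2 + 8 * a) ≤ 10 * a ^ 3 := by nlinarith
      calc a ^ 2 * (D * (2 + 8 * a)) = D * (a ^ 2 * (2 + 8 * a)) := by ring
        _ ≤ D * (10 * a ^ 3) := by gcongr
        _ = _ := by ring
    calc C4 * a ^ 2 + a ^ 2 * ∑ p ∈ P, D / (p : ℝ) ≤ C4 * a ^ 3 + a ^ 2 * (D * (2 + 8 * a)) := by
          gcongr
      _ ≤ C4 * a ^ 3 + 10 * D * a ^ 3 := by linarith
      _ = _ := by ring
  have hEB' : EB H (fun c => 1 / (η * σ) * |S c - S' c|) ≤ η := by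
    rw [EB_mul_left, one_div, inv_mul_eq_div, div_le_iff₀ (by positivity)]
    refine hEB.trans ?_
    calc M * a ^ 3 ≤ (η * η * κ * a) * a ^ 3 := by gcongr
      _ = η * (η * (κ * a ^ 4)) := by ring
      _ ≤ η * (η * σ) := by gcongr
  -- proportions as averages
  have hpr : ∀ Q : (Mon (2 * m) d → ℤ) → Prop,
      ({c : Mon (2 * m) d → ℤ | (∀ μ, |c μ| ≤ H) ∧ Q c}.ncard : ℝ) / (2 * H + 1 : ℝ) ^ n =
        EB H (fun c => if Q c then 1 else 0) := by
    intro Q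
    rw [ncard_box]
    unfold EB
    rw [hn, Finset.sum_boole]
  rw [hpr] at k1 k2 ⊢
  have g1 := gauss_cdf u η hη0.le
  have g2 := gauss_cdf (u - η) η hη0.le
  rw [sub_add_cancel] at g2
  obtain ⟨c1, c2⟩ := slutsky H S S' u η σ hη0 hσ0 hEB'
  rw [abs_le] at k1 k2 ⊢
  change _ ∧ EB H (fun c => if S' c ≤ u * σ then (1 : ℝ) else 0) - _ ≤ ε
  change -ε ≤ EB H (fun c => if S' c ≤ u * σ then (1 : ℝ) else 0) - _ ∧ _
  change -η ≤ EB H (fun c => if S c ≤ (u + η) * σ then (1 : ℝ) else 0) - _ ∧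
    EB H (fun c => if S c ≤ (u + η) * σ then (1 : ℝ) else 0) - _ ≤ η at k1
  change -η ≤ EB H (fun c => if S c ≤ (u - η) * σ then (1 : ℝ) else 0) - _ ∧
    EB H (fun c => if S c ≤ (u - η) * σ then (1 : ℝ) else 0) - _ ≤ η at k2
  obtain ⟨k11, k12⟩ := k1
  obtain ⟨k21, k22⟩ := k2
  have e3 : ε = 3 * η := by rw [← hη]; ring
  constructor
  · linarith
  · linarith


theorem t (hLD : S_LD) (hTR : S_TR) : S_LAW := by
  intro r φ hφ m d hm hd1 hde hd δ hδ u ε hε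
  exact law_good hLD hTR φ hφ m d hm hd1 hde hd δ hδ u ε hε

end Pool.Agent.K1H6.DC
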